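import Mathlib
import Pool.Agent.H471.CGE

set_option autoImplicit false

open Polynomial Pool.Agent.H471.CG

namespace Pool.Agent.Results.MP_17d326_co.TypeC3

/-- Sanity check: the character of the trivial module is `1`. -/
theorem irrChar_zero : IsIrrChar (0 : Fin 3 → ℤ) 1 := by
  unfold IsIrrChar
  rw [one_mul, zero_add]

/-- Sanity check: the character of the natural module `ℂ^6` of `sp_6(ℂ)`, whose highest weight is
`(1, 0, 0)`, is `∑ (x_i + x_i⁻¹)`. -/
theorem irrChar_natural : IsIrrChar ![1, 0, 0] (∑ i : Fin 3, (xp i 1 + xp i (-1))) := by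
  have h4 : ∀ i : Fin 3, xp i 4 - xp i (-4) =
      (xp i 1 - xp i (-1)) * ((xp i 1 + xp i (-1)) ^ 3 - 2 * (xp i 1 + xp i (-1))) := by
    intro i
    have h := xp_mul_neg i 1
    have e1 := xp_nat i 4
    have e2 := xp_neg_nat i 4
    push_cast at e1 e2
    rw [e1, e2]
    linear_combination (-2 * xp i 1 ^ 2 + 2 * xp i (-1) ^ 2) * h
  have h2 : ∀ i : Fin 3, xp i 2 - xp i (-2) =
      (xp i 1 - xp i (-1)) * (xp i 1 + xp i (-1)) := by
    intro i
    have e1 := xp_nat i 2
    have e2 := xp_neg_nat i 2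
    push_cast at e1 e2
    rw [e1, e2]
    ring
  have e : (![1, 0, 0] + rho 3 : Fin 3 → ℤ) = ![4, 2, 1] := by
    rw [rho3]; ext i; fin_cases i <;> simp
  unfold IsIrrChar
  rw [e, alt_rho]
  unfold alt
  rw [Matrix.det_fin_three, Fin.sum_univ_three]
  simp only [Matrix.of_apply, Matrix.cons_val_zero, Matrix.cons_val_one, Matrix.cons_val, h4, h2]
  ring

lemma neg_coeff (p : ℚ[X]) (h1 : p.eval 1 = 0) (h3 : p.eval 3 ≠ 0) :
    p ≠ 0 ∧ ∃ k, p.coeff k < 0 := by
  have hp : p ≠ 0 := by rintro rfl; simp at h3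
  refine ⟨hp, ?_⟩
  by_contra hcon
  push Not at hcon
  apply hp
  rw [eval_eq_sum_range] at h1
  simp only [one_pow, mul_one] at h1
  rw [Finset.sum_eq_zero_iff_of_nonneg (fun i _ => hcon i)] at h1
  have h2 := h1 p.natDegree (Finset.self_mem_range_succ _)
  exact leadingCoeff_eq_zero.mp h2

/-- Steinberg's formula for the stretched triple, `t = 1` -/
lemma st1 : St 3 3 3 3 3 2 5 3 1 = 0 := by decide +kernel

/-- Steinberg's formula for the stretched triple, `t = 3` -/
lemma st3 : St 9 9 9 9 9 6 15 9 3 = 1 := by decide +kernel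

/-- **Counterexample in type `C_3`.** Take the dominant integral weights `lam = (3, 3, 3)`,
`mu = (3, 3, 2)`, `nu = (5, 3, 1)` of `sp_6(ℂ)`. For every `t` the stretched Clebsch-Gordan
coefficient `c t` of `(t lam, t mu, t nu)` is well defined (there is exactly one integer `x` with
`IsCG (t lam) (t mu) (t nu) x`), `c 1 = 0`, `c 3 = 1`, and every polynomial which agrees with `c` at
the odd integers `t` is not identically zero and has a negative coefficient. -/
theorem result :
    ∃ lam mu nu : Fin 3 → ℤ, Dominant lam ∧ Dominant mu ∧ Dominant nu ∧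
      ∃ c : ℕ → ℤ,
        (∀ (t : ℕ) (x : ℤ),
          IsCG ((t : ℤ) • lam) ((t : ℤ) • mu) ((t : ℤ) • nu) x ↔ x = c t) ∧
        c 1 = 0 ∧ c 3 = 1 ∧
        ∀ p : ℚ[X], (∀ t : ℕ, Odd t → p.eval (t : ℚ) = (c t : ℚ)) →
          p ≠ 0 ∧ ∃ k, p.coeff k < 0 := by
  have dom : ∀ (a b c : ℤ), b ≤ a → c ≤ b → 0 ≤ c → ∀ t : ℕ, Dominant ((t : ℤ) • ![a, b, c]) := by
    intro a b c h1 h2 h3 t
    have ht : (0 : ℤ) ≤ t := Int.natCast_nonneg t
    have h4 := mul_le_mul_of_nonneg_left h1 ht
    have h5 := mul_le_mul_of_nonneg_left h2 ht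
    have h6 := mul_nonneg ht h3
    have h7 := h5.trans h4
    constructor
    · intro i j hij
      fin_cases i <;> fin_cases j <;>
        first
        | (exfalso; revert hij; decide)
        | (simp only [Pi.smul_apply, smul_eq_mul, Fin.zero_eta, Fin.mk_one, Fin.reduceFinMk,
            Matrix.cons_val_zero, Matrix.cons_val_one, Matrix.cons_val]
           first | exact le_refl _ | assumption)
    · intro i
      fin_cases i <;>
        simp only [Pi.smul_apply, smul_eq_mul, Fin.zero_eta, Fin.mk_one, Fin.reduceFinMk,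
            Matrix.cons_val_zero, Matrix.cons_val_one, Matrix.cons_val] <;> omega
  have d1 := dom 3 3 3 (by norm_num) (by norm_num) (by norm_num)
  have d2 := dom 3 3 2 (by norm_num) (by norm_num) (by norm_num)
  have d3 := dom 5 3 1 (by norm_num) (by norm_num) (by norm_num)
  obtain ⟨c, hc⟩ : ∃ c : ℕ → ℤ, ∀ t : ℕ, c t =
      St ((t : ℤ) * 3) ((t : ℤ) * 3) ((t : ℤ) * 3) ((t : ℤ) * 3) ((t : ℤ) * 3) ((t : ℤ) * 2)
        ((t : ℤ) * 5) ((t : ℤ) * 3) ((t : ℤ) * 1) := ⟨_, fun _ => rfl⟩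
  have hc1 : c 1 = 0 := by rw [hc]; exact st1
  have hc3 : c 3 = 1 := by rw [hc]; exact st3
  refine ⟨![3, 3, 3], ![3, 3, 2], ![5, 3, 1], by simpa using d1 1, by simpa using d2 1,
    by simpa using d3 1, c, ?_, hc1, hc3, ?_⟩
  · intro t x
    rw [isCG_iff _ _ _ (d1 t) (d2 t) (d3 t), hc]
    rfl
  · intro p hp
    apply neg_coeff
    · have := hp 1 (by decide)
      rwa [hc1, Int.cast_zero, Nat.cast_one] at this
    · have := hp 3 (by decide)
      rw [hc3] at this
      have e : ((3 : ℕ) : ℚ) = 3 := by norm_num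
      rw [e] at this
      rw [this]; norm_num

end Pool.Agent.Results.MP_17d326_co.TypeC3
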